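import Mathlib
import Pool.Agent.H778.CR.BF
import Pool.Agent.H778.CR.Round
import Pool.Agent.H778.CR.WSystem

/-!
# Beck–Fiala: the number of good colourings in terms of the rank

Let `S_1, …, S_m` be subsets of `[n]` of maximum degree at most `t`, `t ≥ 1`, and let `r` be the
rank of the incidence matrix.

(1) At least `2^n (r / (192 n))^{r/2}` colourings have discrepancy at most `2 t - 1`.

(2) At least `2^n (r / (192 n))^{r/2}` colourings have the property that the discrepancy of `S_j`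
is at most `C min (√t Λ_j^{1/4}, √t + (1 + log t)^{3/2} Λ_j^{1/2})` for every `j`, where
`Λ_j = 1 + log (min (r, j))` and `C` is absolute.

(3) The Beck–Fiala conjecture holds if and only if there is a constant `C` such that in every
system at least `2^n (r / (C n))^{r/2}` colourings have discrepancy at most `C √t`.

(4) This number of colourings is optimal: for all `t ≥ 1` and `2 t ≤ r ≤ n` there is a system on
`n` points of maximum degree at most `t` and rank `r` such that for every `D ≥ 1` at most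
`2^n (30000 D² r / n)^{r/2}` colourings have discrepancy at most `D √t`.
-/

set_option autoImplicit false

namespace Pool.Agent.Results.MP_e8ee11_co.CountInRank

open Finset

/-- Every element is in at most `t` of the sets `S_1, …, S_m`. -/
def DegreeLE {m n : ℕ} (S : Fin m → Finset (Fin n)) (t : ℕ) : Prop :=
  ∀ i, (Finset.univ.filter (fun j => i ∈ S j)).card ≤ t

/-- The rank of the incidence matrix. -/
noncomputable def rank {m n : ℕ} (S : Fin m → Finset (Fin n)) : ℕ :=
  (Matrix.of fun (j : Fin m) (i : Fin n) => if i ∈ S j then (1:ℝ) else 0).rank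

/-- The number of colourings `χ : [n] → {-1, 1}` with `|∑_{i ∈ S_j} χ(i)| ≤ R j` for all `j`. -/
noncomputable def count {m n : ℕ} (S : Fin m → Finset (Fin n)) (R : Fin m → ℝ) : ℕ :=
  Nat.card {χ : Fin n → ℤˣ // ∀ j, |∑ i ∈ S j, ((χ i : ℤ) : ℝ)| ≤ R j}

theorem units_real (u : ℤˣ) : ((u : ℤ) : ℝ) = 1 ∨ ((u : ℤ) : ℝ) = -1 := by
  rcases Int.units_eq_one_or u with h | h <;> simp [h]

/-- the rank in terms of the columns -/
theorem rank_eq {m n : ℕ} (S : Fin m → Finset (Fin n)) :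
    rank S = Pool.Agent.H778.CR.rk (Pool.Agent.H778.CR.inc S) := by
  unfold rank Pool.Agent.H778.CR.rk
  rw [Matrix.rank_eq_finrank_span_cols]
  rfl

/-- sums over a set in terms of the columns -/
theorem sum_inc {m n : ℕ} (S : Fin m → Finset (Fin n)) (I : Finset (Fin n)) (x : Fin n → ℝ)
    (j : Fin m) :
    ∑ i ∈ I, x i * Pool.Agent.H778.CR.inc S i j = ∑ i ∈ S j ∩ I, x i := by
  unfold Pool.Agent.H778.CR.inc
  simp only [mul_ite, mul_one, mul_zero]
  rw [← Finset.sum_filter, Finset.inter_comm, Finset.filter_mem_eq_inter]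

theorem balanced {m n : ℕ} (S : Fin m → Finset (Fin n)) (x : Fin n → ℝ)
    (hx0 : ∑ i, x i • Pool.Agent.H778.CR.inc S i = 0) (j : Fin m) : ∑ i ∈ S j, x i = 0 := by
  have h := congrFun hx0 j
  rw [Finset.sum_apply] at h
  simp only [Pi.smul_apply, smul_eq_mul, Pi.zero_apply] at h
  rw [sum_inc S univ x j, Finset.inter_univ] at h
  exact h

theorem part1 (m n t : ℕ) (S : Fin m → Finset (Fin n)) (ht : 1 ≤ t) (hS : DegreeLE S t) :
    2 ^ n * ((rank S : ℝ) / (192 * n)) ^ ((rank S : ℝ) / 2) ≤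
      (count S (fun _ => 2 * t - 1) : ℝ) := by
  rw [rank_eq]
  refine Pool.Agent.H778.CR.counting (Pool.Agent.H778.CR.inc S)
    (fun e => ∀ j, |∑ i ∈ S j, e i| ≤ 2 * t - 1) fun x hx hx0 _ => ?_
  obtain ⟨ε, hε1, hε2, hε3⟩ := Pool.Agent.H778.CR.bf_round S t ht hS _ x hx rfl
  refine ⟨ε, hε1, fun j => ?_, hε2⟩
  have h1 := hε3 j
  rw [Finset.sum_sub_distrib, balanced S x hx0 j, sub_zero] at h1
  -- the sum is an integer
  have hint : ∀ i, ∃ e : ℤ, (e : ℝ) = ε i := by
    intro i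
    rcases hε1 i with h | h
    · exact ⟨1, by rw [h]; norm_num⟩
    · exact ⟨-1, by rw [h]; norm_num⟩
  choose e he using hint
  have h2 : ∑ i ∈ S j, ε i = ((∑ i ∈ S j, e i : ℤ) : ℝ) := by
    push_cast
    exact Finset.sum_congr rfl fun i _ => (he i).symm
  rw [h2] at h1 ⊢
  have h3 : |∑ i ∈ S j, e i| < 2 * (t : ℤ) := by
    have : ((|∑ i ∈ S j, e i| : ℤ) : ℝ) < ((2 * (t : ℤ) : ℤ) : ℝ) := by
      push_cast
      push_cast at h1
      exact h1
    exact_mod_cast this
  have h4 : |∑ i ∈ S j, e i| ≤ 2 * (t : ℤ) - 1 := by omega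
  have h5 : ((|∑ i ∈ S j, e i| : ℤ) : ℝ) ≤ ((2 * (t : ℤ) - 1 : ℤ) : ℝ) := by exact_mod_cast h4
  push_cast at h5 ⊢
  exact h5

/-- the bound for the set number `j` in part (2) -/
noncomputable def bound (t r j : ℕ) : ℝ :=
  min (Real.sqrt t * (1 + Real.log (min r (j + 1) : ℕ)) ^ (1 / 4 : ℝ))
    (Real.sqrt t + (1 + Real.log t) ^ (3 / 2 : ℝ) *
      (1 + Real.log (min r (j + 1) : ℕ)) ^ (1 / 2 : ℝ))

theorem val_le (t r j : ℕ) (ht : 1 ≤ t) :
    Real.sqrt t * Pool.Agent.H778.CR.val (1 / Real.sqrt t) r j ≤ bound t r j := by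
  have ht' : (1:ℝ) ≤ t := by exact_mod_cast ht
  have hst : 1 ≤ Real.sqrt t := Real.one_le_sqrt.2 ht'
  have hst0 : 0 < Real.sqrt t := by linarith
  have hL := Pool.Agent.H778.CR.one_le_Lam r j
  have hp : 0 ≤ Pool.Agent.H778.CR.Lam r j ^ (1 / 2 : ℝ) := Real.rpow_nonneg (by linarith) _
  unfold Pool.Agent.H778.CR.val bound
  refine le_min ?_ ?_
  · exact mul_le_mul_of_nonneg_left (min_le_left _ _) hst0.le
  · refine (mul_le_mul_of_nonneg_left (min_le_right _ _) hst0.le).trans ?_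
    have h1 : Pool.Agent.Results.MP_c81d26_co.PrescribedBounds.flat (1 / Real.sqrt t) ≤
        1 / Real.sqrt t * (1 + Real.log t) ^ (3 / 2 : ℝ) := by
      unfold Pool.Agent.Results.MP_c81d26_co.PrescribedBounds.flat
      rw [one_div_one_div]
      apply mul_le_mul_of_nonneg_left _ (by positivity)
      have h2 : 0 ≤ Real.log (Real.sqrt t) := Real.log_nonneg hst
      apply Real.rpow_le_rpow (by linarith) _ (by norm_num)
      have h3 : Real.log (Real.sqrt t) ≤ Real.log t := by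
        apply Real.log_le_log hst0
        rw [Real.sqrt_le_left (by linarith)]
        nlinarith
      linarith
    have h2 : Real.sqrt t * (1 + Pool.Agent.Results.MP_c81d26_co.PrescribedBounds.flat
        (1 / Real.sqrt t) * Pool.Agent.H778.CR.Lam r j ^ (1 / 2 : ℝ)) ≤
        Real.sqrt t * (1 + 1 / Real.sqrt t * (1 + Real.log t) ^ (3 / 2 : ℝ) *
          Pool.Agent.H778.CR.Lam r j ^ (1 / 2 : ℝ)) := by
      apply mul_le_mul_of_nonneg_left _ hst0.le
      have := mul_le_mul_of_nonneg_right h1 hp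
      linarith
    refine h2.trans (le_of_eq ?_)
    unfold Pool.Agent.H778.CR.Lam
    field_simp

theorem part2 (m n t : ℕ) (S : Fin m → Finset (Fin n)) (ht : 1 ≤ t) (hS : DegreeLE S t) :
    2 ^ n * ((rank S : ℝ) / (192 * n)) ^ ((rank S : ℝ) / 2) ≤
      (count S (fun j => 60000000 * bound t (rank S) j) : ℝ) := by
  rw [rank_eq]
  have ht' : (1:ℝ) ≤ t := by exact_mod_cast ht
  have ht0 : (0:ℝ) < t := by linarith
  have hst : 1 ≤ Real.sqrt t := Real.one_le_sqrt.2 ht'
  have hst0 : 0 < Real.sqrt t := by linarith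
  set r := Pool.Agent.H778.CR.rk (Pool.Agent.H778.CR.inc S) with hr
  refine Pool.Agent.H778.CR.counting (Pool.Agent.H778.CR.inc S)
    (fun e => ∀ j, |∑ i ∈ S j, e i| ≤ 60000000 * bound t r j) fun x hx hx0 ⟨J, hJ, _, hJx⟩ => ?_
  obtain ⟨ε, hε1, hε2⟩ := Pool.Agent.H778.CR.rounding n m
    (fun i j => Pool.Agent.H778.CR.inc S i j / Real.sqrt t) (1 / Real.sqrt t) (fun i => by
      have h1 : ∀ j, (Pool.Agent.H778.CR.inc S i j / Real.sqrt t) ^ 2 =
          if i ∈ S j then 1 / (t:ℝ) else 0 := by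
        intro j
        unfold Pool.Agent.H778.CR.inc
        split_ifs
        · rw [div_pow, one_pow, Real.sq_sqrt ht0.le]
        · norm_num
      simp_rw [h1]
      rw [← Finset.sum_filter, Finset.sum_const, nsmul_eq_mul, mul_one_div, div_le_one ht0]
      exact_mod_cast hS i) (by positivity) (by rw [div_le_one hst0]; exact hst) (fun i j => by
      rw [abs_div, abs_of_pos hst0]
      apply div_le_div_of_nonneg_right _ hst0.le
      unfold Pool.Agent.H778.CR.inc
      split_ifs <;> simp) r x hx J hJ hJx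
  refine ⟨fun i => ((ε i : ℤ) : ℝ), fun i => units_real _, fun j => ?_, hε1⟩
  have h1 := hε2 j
  have h2 : ∑ i, (((ε i : ℤ) : ℝ) - x i) * (Pool.Agent.H778.CR.inc S i j / Real.sqrt t) =
      (∑ i ∈ S j, ((ε i : ℤ) : ℝ)) / Real.sqrt t := by
    have h3 := sum_inc S univ (fun i => ((ε i : ℤ) : ℝ) - x i) j
    rw [Finset.inter_univ, Finset.sum_sub_distrib, balanced S x hx0 j, sub_zero] at h3
    rw [← h3, Finset.sum_div]
    exact Finset.sum_congr rfl fun i _ => by rw [mul_div_assoc]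
  rw [h2, abs_div, abs_of_pos hst0, div_le_iff₀ hst0] at h1
  refine h1.trans ?_
  have h3 := val_le t r j ht
  calc 60000000 * Pool.Agent.H778.CR.val (1 / Real.sqrt t) r j * Real.sqrt t
      = 60000000 * (Real.sqrt t * Pool.Agent.H778.CR.val (1 / Real.sqrt t) r j) := by ring
    _ ≤ 60000000 * bound t r j := mul_le_mul_of_nonneg_left h3 (by norm_num)

theorem part3 :
    (∃ C : ℝ, 0 < C ∧ ∀ (n m t : ℕ) (S : Fin m → Finset (Fin n)), DegreeLE S t →
      ∃ χ : Fin n → ℤ, (∀ i, χ i = 1 ∨ χ i = -1) ∧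
        ∀ j, ((|∑ i ∈ S j, χ i| : ℤ) : ℝ) ≤ C * Real.sqrt t) ↔
    ∃ C : ℝ, 0 < C ∧ ∀ (n m t : ℕ) (S : Fin m → Finset (Fin n)), DegreeLE S t →
      2 ^ n * ((rank S : ℝ) / (C * n)) ^ ((rank S : ℝ) / 2) ≤
        (count S (fun _ => C * Real.sqrt t) : ℝ) := by
  classical
  constructor
  · rintro ⟨c, hc, h⟩
    set C : ℝ := max (2 * c) 192 with hC
    have hC0 : 0 < C := lt_of_lt_of_le (by norm_num) (le_max_right _ _)
    refine ⟨C, hC0, fun n m t S hS => ?_⟩
    have h1 := Pool.Agent.H778.CR.transfer (Pool.Agent.H778.CR.inc S) (c * Real.sqrt t)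
      (fun I _ => by
      obtain ⟨χ, hχ, hχ2⟩ := h n m t (fun j => S j ∩ I) (fun i => by
        refine le_trans (Finset.card_le_card ?_) (hS i)
        intro j hj
        simp only [Finset.mem_filter, Finset.mem_univ, true_and, Finset.mem_inter] at hj ⊢
        exact hj.1)
      refine ⟨fun i => (χ i : ℝ), fun i => ?_, fun j => ?_⟩
      · rcases hχ i with h | h <;> simp [h]
      · rw [sum_inc]
        have h2 := hχ2 j
        push_cast at h2
        exact h2)
    have h2 : 2 ^ n * ((rank S : ℝ) / (C * n)) ^ ((rank S : ℝ) / 2) ≤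
        2 ^ n * ((rank S : ℝ) / (192 * n)) ^ ((rank S : ℝ) / 2) := by
      apply mul_le_mul_of_nonneg_left _ (by positivity)
      apply Real.rpow_le_rpow (by positivity) _ (by positivity)
      rcases Nat.eq_zero_or_pos n with hn | hn
      · subst hn; simp
      · have hn' : (0:ℝ) < n := by exact_mod_cast hn
        apply div_le_div_of_nonneg_left (by positivity) (by positivity)
        exact mul_le_mul_of_nonneg_right (le_max_right _ _) hn'.le
    rw [← rank_eq] at h1
    refine (h2.trans h1).trans ?_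
    have h3 : Nat.card {χ : Fin n → ℤˣ // ∀ j, |∑ i, ((χ i : ℤ) : ℝ) *
        Pool.Agent.H778.CR.inc S i j| ≤ 2 * (c * Real.sqrt t)} ≤
        count S (fun _ => C * Real.sqrt t) := by
      unfold count
      have key : ∀ χ : Fin n → ℤˣ, (∀ j, |∑ i, ((χ i : ℤ) : ℝ) *
          Pool.Agent.H778.CR.inc S i j| ≤ 2 * (c * Real.sqrt t)) →
          ∀ j, |∑ i ∈ S j, ((χ i : ℤ) : ℝ)| ≤ C * Real.sqrt t := by
        intro χ hχ j
        have h4 := hχ j
        rw [sum_inc S univ (fun i => ((χ i : ℤ) : ℝ)) j, Finset.inter_univ] at h4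
        refine h4.trans ?_
        rw [← mul_assoc]
        exact mul_le_mul_of_nonneg_right (le_max_left _ _) (Real.sqrt_nonneg _)
      apply Nat.card_le_card_of_injective
        (fun ε => ⟨ε.1, key ε.1 ε.2⟩ :
          {χ : Fin n → ℤˣ // ∀ j, |∑ i, ((χ i : ℤ) : ℝ) *
            Pool.Agent.H778.CR.inc S i j| ≤ 2 * (c * Real.sqrt t)} →
          {χ : Fin n → ℤˣ // ∀ j, |∑ i ∈ S j, ((χ i : ℤ) : ℝ)| ≤ C * Real.sqrt t})
      intro a b hab
      apply Subtype.ext
      simpa using hab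
    exact_mod_cast h3
  · rintro ⟨C, hC, h⟩
    refine ⟨C, hC, fun n m t S hS => ?_⟩
    have h1 := h n m t S hS
    have h2 : (0:ℝ) < 2 ^ n * ((rank S : ℝ) / (C * n)) ^ ((rank S : ℝ) / 2) := by
      apply mul_pos (by positivity)
      rcases Nat.eq_zero_or_pos (rank S) with hr | hr
      · rw [hr]; simp
      · have hr' : (0:ℝ) < rank S := by exact_mod_cast hr
        have hn : 0 < n := by
          have h5 : rank S ≤ n := by
            unfold rank
            have := Matrix.rank_le_width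
              (Matrix.of fun (j : Fin m) (i : Fin n) => if i ∈ S j then (1:ℝ) else 0)
            exact this
          omega
        have hn' : (0:ℝ) < n := by exact_mod_cast hn
        positivity
    have h3 : 0 < count S (fun _ => C * Real.sqrt t) := by exact_mod_cast lt_of_lt_of_le h2 h1
    unfold count at h3
    obtain ⟨⟨χ, hχ⟩⟩ := (Nat.card_pos_iff.1 h3).1
    refine ⟨fun i => (χ i : ℤ), fun i => ?_, fun j => ?_⟩
    · rcases Int.units_eq_one_or (χ i) with h | h <;> simp [h]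
    · have := hχ j
      push_cast
      exact this

theorem part4 (t r n : ℕ) (ht : 1 ≤ t) (hr : 2 * t ≤ r) (hn : r ≤ n) :
    ∃ (m : ℕ) (S : Fin m → Finset (Fin n)), DegreeLE S t ∧ rank S = r ∧
      ∀ D : ℝ, 1 ≤ D → (count S (fun _ => D * Real.sqrt t) : ℝ) ≤
        2 ^ n * (30000 * D ^ 2 * r / n) ^ ((r : ℝ) / 2) := by
  obtain ⟨m, S, h1, h2, h3⟩ := Pool.Agent.H778.CR.bf_sharp t r n ht hr hn
  exact ⟨m, S, h1, (rank_eq S).trans h2, h3⟩

/-- **The number of good colourings in terms of the rank**: see the header of the file. -/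
theorem result :
    (∀ (m n t : ℕ) (S : Fin m → Finset (Fin n)), 1 ≤ t → DegreeLE S t →
      2 ^ n * ((rank S : ℝ) / (192 * n)) ^ ((rank S : ℝ) / 2) ≤
        (count S (fun _ => 2 * t - 1) : ℝ)) ∧
    (∃ C : ℝ, ∀ (m n t : ℕ) (S : Fin m → Finset (Fin n)), 1 ≤ t → DegreeLE S t →
      2 ^ n * ((rank S : ℝ) / (192 * n)) ^ ((rank S : ℝ) / 2) ≤
        (count S (fun j => C * min
          (Real.sqrt t * (1 + Real.log (min (rank S) (j + 1) : ℕ)) ^ (1 / 4 : ℝ))
          (Real.sqrt t + (1 + Real.log t) ^ (3 / 2 : ℝ) *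
            (1 + Real.log (min (rank S) (j + 1) : ℕ)) ^ (1 / 2 : ℝ))) : ℝ)) ∧
    ((∃ C : ℝ, 0 < C ∧ ∀ (n m t : ℕ) (S : Fin m → Finset (Fin n)), DegreeLE S t →
        ∃ χ : Fin n → ℤ, (∀ i, χ i = 1 ∨ χ i = -1) ∧
          ∀ j, ((|∑ i ∈ S j, χ i| : ℤ) : ℝ) ≤ C * Real.sqrt t) ↔
      ∃ C : ℝ, 0 < C ∧ ∀ (n m t : ℕ) (S : Fin m → Finset (Fin n)), DegreeLE S t →
        2 ^ n * ((rank S : ℝ) / (C * n)) ^ ((rank S : ℝ) / 2) ≤
          (count S (fun _ => C * Real.sqrt t) : ℝ)) ∧
    (∀ t r n : ℕ, 1 ≤ t → 2 * t ≤ r → r ≤ n →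
      ∃ (m : ℕ) (S : Fin m → Finset (Fin n)), DegreeLE S t ∧ rank S = r ∧
        ∀ D : ℝ, 1 ≤ D → (count S (fun _ => D * Real.sqrt t) : ℝ) ≤
          2 ^ n * (30000 * D ^ 2 * r / n) ^ ((r : ℝ) / 2)) :=
  ⟨part1, ⟨60000000, part2⟩, part3, part4⟩

end Pool.Agent.Results.MP_e8ee11_co.CountInRank
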